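import Pool.Agent.Helper99.LZ.Quad

/-!
# Product theorem for HH1 : the form `Quad` is nonnegative (packet MT-QUAD of helper99)
-/

set_option autoImplicit false

open Finset

namespace Pool.Agent.Helper69.LZ

open Pool.Agent.Helper99.LZ

/-- three terms of a sum of nonnegative terms -/
theorem three_le (f : ℤ → ℝ) (hf : ∀ i, 0 ≤ f i) {a b x y z : ℤ} (hxy : x < y) (hyz : y < z)
    (hax : a ≤ x) (hzb : z ≤ b) : f x + f y + f z ≤ ∑ i ∈ Icc a b, f i := by
  have hsub : ({x, y, z} : Finset ℤ) ⊆ Icc a b := by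
    intro i hi
    simp only [mem_insert, mem_singleton] at hi
    rw [mem_Icc]
    omega
  have h1 := sum_le_sum_of_subset_of_nonneg (f := f) hsub (fun i _ _ => hf i)
  have h2 : ∑ i ∈ ({x, y, z} : Finset ℤ), f i = f x + f y + f z := by
    rw [sum_insert (by simp; omega), sum_insert (by simp; omega), sum_singleton]
    ring
  rw [h2] at h1
  exact h1

theorem hp_sub_al (T : Pr) (k : ℤ) : T.hp k - T.al k = T.h k := by
  unfold Pr.hp Pr.al
  rcases le_total 0 (T.h k) with h | h
  · rw [max_eq_right h, max_eq_left (by linarith)]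
    ring
  · rw [max_eq_left h, max_eq_right (by linarith)]
    ring

/-- the rest of a row -/
theorem row_rest {T : Pr} {a b : ℤ} {m : ℤ → ℤ → ℝ} (h : Cpl T a b m) {j j' : ℤ}
    (hj : j + 2 ≤ j') (hm : 0 < m j j') : T.hp j < T.hp (j + 1) := by
  obtain ⟨ha, _, hb⟩ := h.supp j j' hm.ne'
  have h1 := three_le (m j) (h.nn j) (a := a) (b := b) (x := j) (y := j + 1) (z := j')
    (by omega) (by omega) ha hb
  rw [h.row j, h.inst j] at h1
  have h2 := h.one (j + 1)
  rw [show j + 1 - 1 = j by ring] at h2
  rw [h2] at h1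
  have h3 := hp_sub_al T j
  have h4 : T.L j = T.F j - T.h j := by
    unfold Pr.L Pr.F Pr.h Pr.H
    ring
  by_contra hcon
  rw [not_lt] at hcon
  rw [max_eq_left hcon] at h1
  linarith

/-- the rest of a column -/
theorem col_rest {T : Pr} {a b : ℤ} {m : ℤ → ℤ → ℝ} (h : Cpl T a b m) {j j' : ℤ}
    (hj : j + 2 ≤ j') (hm : 0 < m j j') : T.hp j' < T.hp (j' - 1) := by
  obtain ⟨ha, _, hb⟩ := h.supp j j' hm.ne'
  have h1 := three_le (fun i => m i j') (fun i => h.nn i j') (a := a) (b := b) (x := j)
    (y := j' - 1) (z := j') (by omega) (by omega) ha hb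
  rw [h.col j', h.inst j', h.one j'] at h1
  have h3 := hp_sub_al T j'
  have h4 : T.R j' = T.F (j' - 1) - T.h j' := by
    unfold Pr.R Pr.F Pr.h Pr.H
    ring
  by_contra hcon
  rw [not_lt] at hcon
  rw [max_eq_right hcon] at h1
  linarith

theorem quad (hd : StmtDEC) (h1 : StmtR1) (h2 : StmtR2) (h3 : StmtR3) (h4 : StmtR4) :
    StmtQUAD := by
  intro T₁ T₂ n a b a₂ b₂ m m₂ G ζ xN xI nN nI hreg hcpl hG hyp
  have hle : ∀ i i', m i i' ≠ 0 → i ≤ i' := fun i i' h => (hyp.cpl.supp i i' h).2.1
  have hoc : ∀ i, m i i ≠ 0 → oc ζ xN xI nN nI i i = 0 := by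
    intro i hi
    rw [hyp.cpl.inst i] at hi
    have hh : T₁.h i < 0 := by
      by_contra hcon
      rw [not_lt] at hcon
      apply hi
      unfold Pr.al
      exact max_eq_left (by linarith)
    have := hyp.par.om i hh
    unfold oc xc nc
    rw [if_pos rfl, if_pos rfl, this]
    ring
  rw [hd T₂ a₂ b₂ m₂ G n a b m ζ xN xI nN nI hreg hcpl hle hoc]
  apply add_nonneg
  · apply sum_nonneg
    intro j _
    apply sum_nonneg
    intro j' _
    rcases eq_or_ne (m₂ j j') 0 with h0 | h0
    · rw [h0, zero_mul]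
    · have hpos : 0 < m₂ j j' := lt_of_le_of_ne (hcpl.nn j j') (Ne.symm h0)
      apply mul_nonneg hpos.le
      obtain ⟨_, hjj, _⟩ := hcpl.supp j j' h0
      rcases eq_or_lt_of_le hjj with he | hlt
      · subst he
        exact h4 T₁ n a b m (optR T₂ n) ζ xN xI nN nI hyp j
      · rcases eq_or_lt_of_le (show j + 1 ≤ j' by omega) with he | hlt2
        · subst he
          rcases lt_or_ge (T₁.h (n - 1 - j)) 0 with hneg | hge
          · exact h3 T₁ n a b m (optR T₂ n) ζ xN xI nN nI hyp j hneg
          · exact h2 T₁ n a b m (optR T₂ n) ζ xN xI nN nI hyp j hge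
        · have hj2 : j + 2 ≤ j' := by omega
          have hr := row_rest hcpl hj2 hpos
          have hc := col_rest hcpl hj2 hpos
          apply h1 T₁ n a b m (optR T₂ n) ζ xN xI nN nI hyp j j' hj2
          · apply hyp.par.tieX
            rintro ⟨_, hno⟩
            apply hno
            unfold optR
            rw [show n - (n - 1 - j) - 1 = j by ring, show n - (n - 1 - j) = j + 1 by ring]
            exact hr.le
          · apply hyp.par.tieN
            rintro ⟨_, ho⟩
            unfold optR at ho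
            rw [show n - (n - j') - 1 = j' - 1 by ring, show n - (n - j') = j' by ring] at ho
            linarith
  · apply sum_nonneg
    intro i _
    apply sum_nonneg
    intro i' _
    split_ifs
    · have hg := hG (n - i')
      have hm := hyp.cpl.nn i i'
      have hs := sq_nonneg (oc ζ xN xI nN nI i i')
      exact mul_nonneg (mul_nonneg hm hs) (by linarith)
    · exact le_refl _

end Pool.Agent.Helper69.LZ
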